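import Mathlib

/-!
# The externally definable Ramsey property implies FPT

For every ultrahomogeneous structure `M`, of any cardinality and with any age, EDRP implies FPT.
-/

namespace Pool.Agent.Results.MP_fdecab_lc.EDRPImpliesFPT

open FirstOrder FirstOrder.Language Filter Topology

section Defs

variable (L : FirstOrder.Language.{0, 0}) (M : Type) [L.Structure M]

/-- The colouring `χ` of the embeddings `A → M` (for a finite structure `A`, enumerated by `ā`, these are
the elements of the set of copies of `ā` in `M`) is externally definable: there are an elementary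
extension `N` of `M`, a tuple `e` in `N` and formulas `φ_i` with `χ(f) = i ↔ N ⊨ φ_i(e, f(ā))`. -/
def IsExternallyDefinable {A : Type} [L.Structure A] {k : ℕ} (χ : (A ↪[L] M) → Fin k) : Prop :=
  ∃ (N : Type) (_ : L.Structure N) (j : M ↪ₑ[L] N) (l : ℕ) (e : Fin l → N)
    (φ : Fin k → L.Formula (Fin l ⊕ A)),
    ∀ (f : A ↪[L] M) (i : Fin k), χ f = i ↔ (φ i).Realize (Sum.elim e fun a => j (f a))

/-- The externally definable Ramsey property: for all finite `A`, `B` in the age of `M`, all `k` and all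
externally definable colourings `χ` of the embeddings `A → M` with `k` colours there is a copy `B'` of
`B` in `M` (the range of an embedding `g : B → M`) such that `χ` is constant on the embeddings
`A → B'`. -/
def EDRP : Prop :=
  ∀ (A B : Type) [L.Structure A] [L.Structure B] [Finite A] [Finite B],
    Nonempty (A ↪[L] M) → Nonempty (B ↪[L] M) → ∀ (k : ℕ) (χ : (A ↪[L] M) → Fin k),
      IsExternallyDefinable L M χ → ∃ g : B ↪[L] M, ∀ f f' : A ↪[L] M,
        Set.range f ⊆ Set.range g → Set.range f' ⊆ Set.range g → χ f = χ f'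

/-- `S_n(M)`: the complete `n`-types over parameters from `M`, that is the complete sets of formulas
`φ(x̄, m̄)` that are finitely satisfiable in `M`.  A variable `Sum.inl m` stands for the parameter `m`, a
variable `Sum.inr i` for `x_i`. -/
structure TypeOver (n : ℕ) where
  carrier : Set (L.Formula (M ⊕ Fin n))
  complete : ∀ φ, φ ∈ carrier ∨ φ.not ∈ carrier
  finSat : ∀ s : Finset (L.Formula (M ⊕ Fin n)), ↑s ⊆ carrier →
    ∃ a : Fin n → M, ∀ φ ∈ s, φ.Realize (Sum.elim id a)

/-- the Stone topology, generated by the sets of types containing a given formula -/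
instance (n : ℕ) : TopologicalSpace (TypeOver L M n) :=
  TopologicalSpace.generateFrom {U | ∃ φ, U = {p : TypeOver L M n | φ ∈ p.carrier}}

variable {L M}

theorem TypeOver.ext' {n : ℕ} {p q : TypeOver L M n} (h : ∀ φ, φ ∈ p.carrier ↔ φ ∈ q.carrier) :
    p = q := by
  cases p
  cases q
  congr
  exact Set.ext h

theorem TypeOver.mem_of_imp {n : ℕ} (p : TypeOver L M n) {φ ψ : L.Formula (M ⊕ Fin n)}
    (h : ∀ a : Fin n → M, φ.Realize (Sum.elim id a) → ψ.Realize (Sum.elim id a))
    (hφ : φ ∈ p.carrier) : ψ ∈ p.carrier := by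
  classical
  by_contra hcon
  have h1 := (p.complete ψ).resolve_left hcon
  obtain ⟨a, ha⟩ := p.finSat {φ, ψ.not} (by
    intro χ hχ
    simp only [Finset.coe_insert, Finset.coe_singleton, Set.mem_insert_iff,
      Set.mem_singleton_iff] at hχ
    rcases hχ with rfl | rfl
    · exact hφ
    · exact h1)
  exact (Formula.realize_not.mp (ha ψ.not (by simp))) (h a (ha φ (by simp)))

theorem TypeOver.mem_congr {n : ℕ} (p : TypeOver L M n) {φ ψ : L.Formula (M ⊕ Fin n)}
    (h : ∀ a : Fin n → M, φ.Realize (Sum.elim id a) ↔ ψ.Realize (Sum.elim id a)) :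
    φ ∈ p.carrier ↔ ψ ∈ p.carrier :=
  ⟨p.mem_of_imp fun a => (h a).mp, p.mem_of_imp fun a => (h a).mpr⟩

theorem TypeOver.not_mem_not {n : ℕ} (p : TypeOver L M n) (φ : L.Formula (M ⊕ Fin n)) :
    φ.not ∈ p.carrier ↔ φ ∉ p.carrier := by
  classical
  constructor
  · intro h1 h2
    obtain ⟨a, ha⟩ := p.finSat {φ, φ.not} (by
      intro χ hχ
      simp only [Finset.coe_insert, Finset.coe_singleton, Set.mem_insert_iff,
        Set.mem_singleton_iff] at hχ
      rcases hχ with rfl | rfl
      · exact h2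
      · exact h1)
    exact (Formula.realize_not.mp (ha φ.not (by simp))) (ha φ (by simp))
  · exact (p.complete φ).resolve_left

/-- a formula with its parameters moved by `g` -/
def moveParam {n : ℕ} (g : M → M) (φ : L.Formula (M ⊕ Fin n)) : L.Formula (M ⊕ Fin n) :=
  Formula.relabel (Sum.map g id) φ

omit [L.Structure M] in
theorem realize_moveParam {n : ℕ} (g : M → M) (φ : L.Formula (M ⊕ Fin n)) {N : Type*}
    [L.Structure N] (v : M ⊕ Fin n → N) :
    (moveParam g φ).Realize v ↔ φ.Realize (v ∘ Sum.map g id) :=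
  Formula.realize_relabel

/-- The action `g · p = {φ(x̄, g b̄) : φ(x̄, b̄) ∈ p}` of an automorphism `g` of `M`: a formula belongs to
`g · p` iff the formula with parameters moved back by `g⁻¹` belongs to `p`. -/
def act {n : ℕ} (g : M ≃[L] M) (p : TypeOver L M n) : TypeOver L M n where
  carrier := {φ | moveParam g.symm φ ∈ p.carrier}
  complete := fun φ => p.complete _
  finSat := by
    classical
    intro s hs
    obtain ⟨a, ha⟩ := p.finSat (s.image (moveParam g.symm)) (by
      intro χ hχ
      simp only [Finset.coe_image, Set.mem_image, Finset.mem_coe] at hχ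
      obtain ⟨φ, hφ, rfl⟩ := hχ
      exact hs hφ)
    refine ⟨g ∘ a, fun φ hφ => ?_⟩
    have h1 := ha _ (Finset.mem_image_of_mem _ hφ)
    rw [realize_moveParam, ← StrongHomClass.realize_formula g] at h1
    have h2 : ⇑g ∘ ((Sum.elim id a : M ⊕ Fin n → M) ∘ Sum.map (⇑g.symm) id) =
        Sum.elim id (⇑g ∘ a) := by
      funext z
      rcases z with z | z
      · exact g.apply_symm_apply z
      · rfl
    rw [h2] at h1
    exact h1

theorem mem_act {n : ℕ} (g : M ≃[L] M) (p : TypeOver L M n) (φ : L.Formula (M ⊕ Fin n)) :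
    φ ∈ (act g p).carrier ↔ moveParam g.symm φ ∈ p.carrier := Iff.rfl

variable (L M)

/-- a subflow of `S_n(M)`: a nonempty closed invariant subset -/
def IsSubflow {n : ℕ} (F : Set (TypeOver L M n)) : Prop :=
  F.Nonempty ∧ IsClosed F ∧ ∀ (g : M ≃[L] M), ∀ p ∈ F, act g p ∈ F

/-- FPT: for all `n ≥ 1` each subflow of `S_n(M)` contains a fixed point -/
def FPT : Prop :=
  ∀ n : ℕ, 1 ≤ n → ∀ F : Set (TypeOver L M n), IsSubflow L M F →
    ∃ p ∈ F, ∀ g : M ≃[L] M, act g p = p

end Defs

section Proof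

variable {L : FirstOrder.Language.{0, 0}} {M : Type} [L.Structure M]

theorem isOpen_mem {n : ℕ} (φ : L.Formula (M ⊕ Fin n)) :
    IsOpen {p : TypeOver L M n | φ ∈ p.carrier} :=
  TopologicalSpace.isOpen_generateFrom_of_mem ⟨φ, rfl⟩

theorem isClosed_mem {n : ℕ} (φ : L.Formula (M ⊕ Fin n)) :
    IsClosed {p : TypeOver L M n | φ ∈ p.carrier} := by
  have h : {p : TypeOver L M n | φ ∈ p.carrier} = {p | φ.not ∈ p.carrier}ᶜ := by
    ext p
    simp only [Set.mem_ofPred_eq, Set.mem_compl_iff, TypeOver.not_mem_not, not_not]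
  rw [h]
  exact (isOpen_mem φ.not).isClosed_compl

theorem isClosed_iff_mem {n : ℕ} (φ ψ : L.Formula (M ⊕ Fin n)) :
    IsClosed {p : TypeOver L M n | φ ∈ p.carrier ↔ ψ ∈ p.carrier} := by
  have h : {p : TypeOver L M n | φ ∈ p.carrier ↔ ψ ∈ p.carrier} =
      ({p | φ ∈ p.carrier} ∩ {p | ψ ∈ p.carrier}) ∪
        ({p | φ ∈ p.carrier}ᶜ ∩ {p | ψ ∈ p.carrier}ᶜ) := by
    ext p
    simp only [Set.mem_ofPred_eq, Set.mem_union, Set.mem_inter_iff, Set.mem_compl_iff]
    tauto
  rw [h]
  exact ((isClosed_mem φ).inter (isClosed_mem ψ)).union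
    ((isOpen_mem φ).isClosed_compl.inter (isOpen_mem ψ).isClosed_compl)

/-- `S_n(M)` is compact -/
instance {n : ℕ} : CompactSpace (TypeOver L M n) := by
  classical
  refine ⟨isCompact_iff_ultrafilter_le_nhds.2 fun U _ => ?_⟩
  let q : TypeOver L M n :=
    { carrier := {φ | ∀ᶠ p in (U : Filter (TypeOver L M n)), φ ∈ p.carrier}
      complete := fun φ => by
        change (∀ᶠ p in (U : Filter (TypeOver L M n)), _) ∨
          (∀ᶠ p in (U : Filter (TypeOver L M n)), _)
        rw [← Ultrafilter.eventually_or]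
        exact Eventually.of_forall fun p => p.complete φ
      finSat := fun s hs => by
        have h : ∀ᶠ p in (U : Filter (TypeOver L M n)), ∀ φ ∈ s, φ ∈ p.carrier :=
          (s.eventually_all).2 fun φ hφ => hs hφ
        obtain ⟨p, hp⟩ := h.exists
        exact p.finSat s hp }
  refine ⟨q, trivial, ?_⟩
  have h := TopologicalSpace.tendsto_nhds_generateFrom_iff
    (g := {U | ∃ φ, U = {p : TypeOver L M n | φ ∈ p.carrier}})
    (m := (id : TypeOver L M n → TypeOver L M n)) (f := (U : Filter (TypeOver L M n))) (b := q)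
  refine h.2 ?_
  rintro _ ⟨φ, rfl⟩ hq
  exact hq

/-- every complete type is realized in some elementary extension -/
theorem exists_realization {n : ℕ} (hn : 0 < n) (p : TypeOver L M n) :
    ∃ (N : Type) (_ : L.Structure N) (j : M ↪ₑ[L] N) (e : Fin n → N),
      ∀ φ, φ ∈ p.carrier ↔ φ.Realize (Sum.elim j e) := by
  classical
  let T : L[[M ⊕ Fin n]].Theory := Formula.equivSentence '' p.carrier
  have hT : T.IsSatisfiable := by
    rw [Theory.isSatisfiable_iff_isFinitelySatisfiable]
    intro T0 hT0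
    obtain ⟨a, ha⟩ := p.finSat (T0.image Formula.equivSentence.symm) (by
      intro χ hχ
      simp only [Finset.coe_image, Set.mem_image, Finset.mem_coe] at hχ
      obtain ⟨σ, hσ, rfl⟩ := hχ
      obtain ⟨φ, hφ, rfl⟩ := hT0 hσ
      rw [Equiv.symm_apply_apply]
      exact hφ)
    have _ : Nonempty M := ⟨a ⟨0, hn⟩⟩
    let _i := constantsOn.structure (Sum.elim id a : M ⊕ Fin n → M)
    have hmod : M ⊨ (T0 : L[[M ⊕ Fin n]].Theory) := by
      rw [Theory.model_iff]
      intro σ hσ
      have h1 := ha _ (Finset.mem_image_of_mem _ hσ)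
      rw [Formula.realize_equivSentence_symm] at h1
      exact h1
    exact Theory.Model.isSatisfiable M
  obtain ⟨N⟩ := hT
  let SN : L.Structure N := (L.lhomWithConstants (M ⊕ Fin n)).reduct N
  have hexp : (L.lhomWithConstants (M ⊕ Fin n)).IsExpansionOn N :=
    LHom.isExpansionOn_reduct _ _
  have hreal : ∀ φ ∈ p.carrier, φ.Realize fun a => (L.con a : N) := by
    intro φ hφ
    rw [← Formula.realize_equivSentence N φ]
    exact Theory.realize_sentence_of_mem T (Set.mem_image_of_mem _ hφ)
  have hreal' : ∀ φ, φ ∈ p.carrier ↔ φ.Realize fun a => (L.con a : N) := by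
    refine fun φ => ⟨hreal φ, fun h => ?_⟩
    rcases p.complete φ with h1 | h1
    · exact h1
    · exact absurd h (Formula.realize_not.mp (hreal _ h1))
  refine ⟨N, SN, ⟨fun m => (L.con (Sum.inl m : M ⊕ Fin n) : N), ?_⟩,
    fun i => (L.con (Sum.inr i : M ⊕ Fin n) : N), fun φ => ?_⟩
  · intro k φ x
    have h1 := hreal' (φ.relabel fun i => (Sum.inl (x i) : M ⊕ Fin n))
    rw [Formula.realize_relabel] at h1
    refine h1.symm.trans ⟨fun h2 => ?_, fun h2 => ?_⟩
    · obtain ⟨a, ha⟩ := p.finSat {φ.relabel fun i => (Sum.inl (x i) : M ⊕ Fin n)} (by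
        simpa using h2)
      have h3 := ha _ (Finset.mem_singleton_self _)
      rw [Formula.realize_relabel] at h3
      exact h3
    · rw [← not_not (a := _ ∈ p.carrier), ← TypeOver.not_mem_not]
      intro h4
      obtain ⟨a, ha⟩ := p.finSat {(φ.relabel fun i => (Sum.inl (x i) : M ⊕ Fin n)).not} (by
        simpa using h4)
      have h3 := ha _ (Finset.mem_singleton_self _)
      rw [Formula.realize_not, Formula.realize_relabel] at h3
      exact h3 h2
  · rw [hreal']
    have e : (fun a => (L.con a : N)) = Sum.elim (fun m => (L.con (Sum.inl m : M ⊕ Fin n) : N))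
        (fun i => (L.con (Sum.inr i : M ⊕ Fin n) : N)) := by
      funext a
      rcases a with a | a <;> rfl
    exact iff_of_eq (congrArg (fun v => φ.Realize v) e)

/-- the formula `ψ` with its parameters replaced by their images under `f` -/
def inst {n : ℕ} {A : Type} (f : A → M) (ψ : L.Formula (A ⊕ Fin n)) : L.Formula (M ⊕ Fin n) :=
  ψ.relabel (Sum.map f id)

omit [L.Structure M] in
theorem realize_inst {n : ℕ} {A : Type} (f : A → M) (ψ : L.Formula (A ⊕ Fin n)) {N : Type}
    [L.Structure N] (j : M → N) (e : Fin n → N) :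
    (inst f ψ).Realize (Sum.elim j e) ↔ ψ.Realize (Sum.elim (j ∘ f) e) := by
  unfold inst
  rw [Formula.realize_relabel, Sum.elim_comp_map]
  rfl

theorem mem_act_inst {n : ℕ} {A : Type} (f : A → M) (ψ : L.Formula (A ⊕ Fin n)) (g : M ≃[L] M)
    (p : TypeOver L M n) :
    inst f ψ ∈ (act g p).carrier ↔ inst (g.symm ∘ f) ψ ∈ p.carrier := by
  rw [mem_act]
  apply p.mem_congr
  intro a
  rw [realize_moveParam, realize_inst, Sum.elim_comp_map, realize_inst]
  rfl

theorem finite_step [L.IsRelational] (hM : L.IsUltrahomogeneous M) (h : EDRP L M) {n : ℕ}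
    (hn : 0 < n) {F : Set (TypeOver L M n)} (hF : IsSubflow L M F) {A : Type} [L.Structure A] [Finite A]
    (hA : Nonempty (A ↪[L] M)) (ψ : L.Formula (A ⊕ Fin n)) (T : Finset (A ↪[L] M)) :
    ∃ p ∈ F, ∀ f ∈ T, ∀ f' ∈ T, (inst f ψ ∈ p.carrier ↔ inst f' ψ ∈ p.carrier) := by
  classical
  obtain ⟨p₀, hp₀⟩ := hF.1
  let S : L.Substructure M := ⟨⋃ f ∈ T, Set.range f, fun {n} fn => isEmptyElim fn⟩
  have hfinS : Finite S := by
    have : (⋃ f ∈ T, Set.range f : Set M).Finite :=
      T.finite_toSet.biUnion fun f _ => Set.finite_range f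
    exact this.to_subtype
  let χ : (A ↪[L] M) → Fin 2 := fun f => if inst f ψ ∈ p₀.carrier then 1 else 0
  have hχ : IsExternallyDefinable L M χ := by
    obtain ⟨N, _, j, e, hN⟩ := exists_realization hn p₀
    refine ⟨N, _, j, n, e, ![(ψ.relabel Sum.swap).not, ψ.relabel Sum.swap], fun f i => ?_⟩
    have e1 : (ψ.relabel Sum.swap).Realize (Sum.elim e fun a => j (f a)) ↔
        inst f ψ ∈ p₀.carrier := by
      rw [hN, realize_inst, Formula.realize_relabel]
      refine iff_of_eq (congrArg (fun v => ψ.Realize v) ?_)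
      funext x
      rcases x with x | x <;> rfl
    fin_cases i
    · change χ f = 0 ↔ (ψ.relabel Sum.swap).not.Realize _
      rw [Formula.realize_not, e1]
      by_cases hf : inst f ψ ∈ p₀.carrier
      · simp [χ, hf]
      · simp [χ, hf]
    · change χ f = 1 ↔ (ψ.relabel Sum.swap).Realize _
      rw [e1]
      by_cases hf : inst f ψ ∈ p₀.carrier
      · simp [χ, hf]
      · simp [χ, hf]
  obtain ⟨g', hg'⟩ := h A S hA ⟨S.subtype⟩ 2 χ hχ
  obtain ⟨g, hg⟩ := hM S Substructure.FG.of_finite g'
  refine ⟨act g.symm p₀, hF.2.2 g.symm p₀ hp₀, fun f hf f' hf' => ?_⟩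
  have hmem : ∀ f ∈ T, (inst f ψ ∈ (act g.symm p₀).carrier ↔
      χ (g.toEmbedding.comp f) = 1) := by
    intro f _
    rw [mem_act_inst]
    have e2 : (⇑g.symm.symm ∘ ⇑f : A → M) = ⇑(g.toEmbedding.comp f) := rfl
    rw [e2]
    by_cases hf : inst (⇑(g.toEmbedding.comp f)) ψ ∈ p₀.carrier
    · simp [χ, hf]
    · simp [χ, hf]
  have hr : ∀ f ∈ T, Set.range (g.toEmbedding.comp f) ⊆ Set.range g' := by
    rintro f hf _ ⟨a, rfl⟩
    have h3 : f a ∈ S := Set.mem_biUnion hf ⟨a, rfl⟩
    refine ⟨⟨f a, h3⟩, ?_⟩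
    rw [hg]
    rfl
  rw [hmem f hf, hmem f' hf', hg' _ _ (hr f hf) (hr f' hf')]

/-- the types in `F` for which the truth of `ψ` does not depend on the copy -/
def part {n : ℕ} (F : Set (TypeOver L M n)) {A : Type} [L.Structure A]
    (ψ : L.Formula (A ⊕ Fin n)) : Set (TypeOver L M n) :=
  {p ∈ F | ∀ f f' : A ↪[L] M, (inst f ψ ∈ p.carrier ↔ inst f' ψ ∈ p.carrier)}

theorem isSubflow_part [L.IsRelational] (hM : L.IsUltrahomogeneous M) (h : EDRP L M) {n : ℕ}
    (hn : 0 < n) {F : Set (TypeOver L M n)} (hF : IsSubflow L M F) {A : Type} [L.Structure A] [Finite A]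
    (hA : Nonempty (A ↪[L] M)) (ψ : L.Formula (A ⊕ Fin n)) : IsSubflow L M (part F ψ) := by
  classical
  have hcl : ∀ i : (A ↪[L] M) × (A ↪[L] M),
      IsClosed {p : TypeOver L M n | inst i.1 ψ ∈ p.carrier ↔ inst i.2 ψ ∈ p.carrier} :=
    fun i => isClosed_iff_mem _ _
  have heq : part F ψ = F ∩ ⋂ i : (A ↪[L] M) × (A ↪[L] M),
      {p : TypeOver L M n | inst i.1 ψ ∈ p.carrier ↔ inst i.2 ψ ∈ p.carrier} := by
    ext p
    simp [part]
  refine ⟨?_, ?_, ?_⟩
  · rw [heq]
    refine hF.2.1.isCompact.inter_iInter_nonempty _ hcl fun u => ?_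
    obtain ⟨p, hp, hp2⟩ := finite_step hM h hn hF hA ψ (u.image Prod.fst ∪ u.image Prod.snd)
    refine ⟨p, hp, ?_⟩
    simp only [Set.mem_iInter]
    intro i hi
    exact hp2 _ (Finset.mem_union_left _ (Finset.mem_image_of_mem _ hi)) _
      (Finset.mem_union_right _ (Finset.mem_image_of_mem _ hi))
  · rw [heq]
    exact hF.2.1.inter (isClosed_iInter hcl)
  · rintro g p ⟨hp, hp2⟩
    refine ⟨hF.2.2 g p hp, fun f f' => ?_⟩
    rw [mem_act_inst, mem_act_inst]
    exact hp2 (g.symm.toEmbedding.comp f) (g.symm.toEmbedding.comp f')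

theorem exists_minimal {n : ℕ} {F : Set (TypeOver L M n)} (hF : IsSubflow L M F) :
    ∃ Y ⊆ F, Minimal (IsSubflow L M) Y := by
  refine zorn_superset_nonempty {Y | IsSubflow L M Y} ?_ F hF
  intro c hc hchain hne
  refine ⟨⋂₀ c, ⟨?_, ?_, ?_⟩, fun s hs => Set.sInter_subset_of_mem hs⟩
  · have : Nonempty c := hne.to_subtype
    exact IsCompact.nonempty_sInter_of_directed_nonempty_isCompact_isClosed
      (fun U hU V hV => by
        rcases hchain.total hU hV with h | h
        · exact ⟨U, hU, subset_rfl, h⟩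
        · exact ⟨V, hV, h, subset_rfl⟩) (fun U hU => (hc hU).1) (fun U hU => (hc hU).2.1.isCompact)
      (fun U hU => (hc hU).2.1)
  · exact isClosed_sInter fun U hU => (hc hU).2.1
  · intro g p hp U hU
    exact (hc hU).2.2 g p (hp U hU)

/-- **EDRP implies FPT**, for every ultrahomogeneous structure `M` in a relational language: no
assumption is made on the cardinality of `M`, of its age, or of the language.  In particular there is no
ultrahomogeneous structure with uncountable age which has EDRP and fails FPT. -/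
theorem result (L : FirstOrder.Language.{0, 0}) [L.IsRelational] (M : Type) [L.Structure M]
    (hM : L.IsUltrahomogeneous M) (h : EDRP L M) : FPT L M := by
  classical
  intro n hn F hF
  obtain ⟨Y, hYF, hY⟩ := exists_minimal hF
  obtain ⟨p, hp⟩ := hY.prop.1
  refine ⟨p, hYF hp, fun g => ?_⟩
  apply TypeOver.ext'
  intro φ
  let P : Finset M := φ.freeVarFinset.toLeft
  let S : L.Substructure M := ⟨(P : Set M), fun {n} fn => isEmptyElim fn⟩
  have hfinS : Finite S := P.finite_toSet.to_subtype
  let ψ : L.Formula (S ⊕ Fin n) := φ.restrictFreeVar fun x =>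
    match x with
    | ⟨Sum.inl m, hm⟩ => Sum.inl ⟨m, by
        change m ∈ (P : Set M)
        simpa [P] using hm⟩
    | ⟨Sum.inr i, _⟩ => Sum.inr i
  have hpart : part Y ψ = Y :=
    subset_antisymm (fun q hq => hq.1)
      (hY.le_of_le (isSubflow_part hM h hn hY.prop ⟨S.subtype⟩ ψ) (fun q hq => hq.1))
  have hpp : p ∈ part Y ψ := by
    rw [hpart]
    exact hp
  have h1 := hpp.2 S.subtype (g.symm.toEmbedding.comp S.subtype)
  have h2 : ∀ (f : M → M) (q : TypeOver L M n), inst (f ∘ S.subtype) ψ ∈ q.carrier ↔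
      moveParam f φ ∈ q.carrier := by
    intro f q
    apply q.mem_congr
    intro a
    rw [realize_inst, realize_moveParam]
    refine BoundedFormula.realize_restrictFreeVar _ ?_
    rintro ⟨x | x, hx⟩
    · rfl
    · rfl
  have h3 := h2 g.symm p
  have h4 := h2 id p
  have h5 : moveParam id φ ∈ p.carrier ↔ φ ∈ p.carrier := by
    apply p.mem_congr
    intro a
    rw [realize_moveParam, Sum.map_id_id, Function.comp_id]
  rw [mem_act, ← h3, ← h5, ← h4]
  exact h1.symm

end Proof

end Pool.Agent.Results.MP_fdecab_lc.EDRPImpliesFPT
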